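import Pool.Agent.J4H88.ABG.Sl3

/-!
# ABG, job WA: the Casimir operator on the cohomology of `n = ⟨e1, e2, e3⟩`

If three times the Casimir operator minus the number `c(l)` is injective on the finite dimensional
`sl_3`-module `M`, then the part of weight `l` of the complex `Hom(Λ^• n, M)` is exact, so that its
Euler characteristic, the alternating sum `ph` of weight multiplicities, vanishes.
-/

namespace Pool.Agent.J4H75.ABG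

open Pool.Agent.J4H88.ABG

attribute [local instance 100] LieRing.ofAssociativeRing

universe u v

open LieAlgebra.SpecialLinear

section br

variable (𝕜 : Type u) [Field 𝕜]


theorem br_e1e2 : ⁅e1 𝕜, e2 𝕜⁆ = e3 𝕜 := by
  apply Subtype.ext
  ext i j
  fin_cases i <;> fin_cases j <;>
    simp [Ring.lie_def, e1, e2, e3, f1, f2, f3, h1, h2, Matrix.mul_apply, Fin.sum_univ_three,
      Matrix.single, val_single, val_singleSubSingle] <;> try norm_num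

theorem br_e1e3 : ⁅e1 𝕜, e3 𝕜⁆ = 0 := by
  apply Subtype.ext
  ext i j
  fin_cases i <;> fin_cases j <;>
    simp [Ring.lie_def, e1, e2, e3, f1, f2, f3, h1, h2, Matrix.mul_apply, Fin.sum_univ_three,
      Matrix.single, val_single, val_singleSubSingle] <;> try norm_num

theorem br_e2e3 : ⁅e2 𝕜, e3 𝕜⁆ = 0 := by
  apply Subtype.ext
  ext i j
  fin_cases i <;> fin_cases j <;>
    simp [Ring.lie_def, e1, e2, e3, f1, f2, f3, h1, h2, Matrix.mul_apply, Fin.sum_univ_three,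
      Matrix.single, val_single, val_singleSubSingle] <;> try norm_num

theorem br_e1f1 : ⁅e1 𝕜, f1 𝕜⁆ = h1 𝕜 := by
  apply Subtype.ext
  ext i j
  fin_cases i <;> fin_cases j <;>
    simp [Ring.lie_def, e1, e2, e3, f1, f2, f3, h1, h2, Matrix.mul_apply, Fin.sum_univ_three,
      Matrix.single, val_single, val_singleSubSingle] <;> try norm_num

theorem br_e2f2 : ⁅e2 𝕜, f2 𝕜⁆ = h2 𝕜 := by
  apply Subtype.ext
  ext i j
  fin_cases i <;> fin_cases j <;>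
    simp [Ring.lie_def, e1, e2, e3, f1, f2, f3, h1, h2, Matrix.mul_apply, Fin.sum_univ_three,
      Matrix.single, val_single, val_singleSubSingle] <;> try norm_num

theorem br_e3f3 : ⁅e3 𝕜, f3 𝕜⁆ = h1 𝕜 + h2 𝕜 := by
  apply Subtype.ext
  ext i j
  fin_cases i <;> fin_cases j <;>
    simp [Ring.lie_def, e1, e2, e3, f1, f2, f3, h1, h2, Matrix.mul_apply, Fin.sum_univ_three,
      Matrix.single, val_single, val_singleSubSingle] <;> try norm_num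

theorem br_e1f2 : ⁅e1 𝕜, f2 𝕜⁆ = 0 := by
  apply Subtype.ext
  ext i j
  fin_cases i <;> fin_cases j <;>
    simp [Ring.lie_def, e1, e2, e3, f1, f2, f3, h1, h2, Matrix.mul_apply, Fin.sum_univ_three,
      Matrix.single, val_single, val_singleSubSingle] <;> try norm_num

theorem br_e2f1 : ⁅e2 𝕜, f1 𝕜⁆ = 0 := by
  apply Subtype.ext
  ext i j
  fin_cases i <;> fin_cases j <;>
    simp [Ring.lie_def, e1, e2, e3, f1, f2, f3, h1, h2, Matrix.mul_apply, Fin.sum_univ_three,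
      Matrix.single, val_single, val_singleSubSingle] <;> try norm_num

theorem br_e1f3 : ⁅e1 𝕜, f3 𝕜⁆ = - f2 𝕜 := by
  apply Subtype.ext
  ext i j
  fin_cases i <;> fin_cases j <;>
    simp [Ring.lie_def, e1, e2, e3, f1, f2, f3, h1, h2, Matrix.mul_apply, Fin.sum_univ_three,
      Matrix.single, val_single, val_singleSubSingle] <;> try norm_num

theorem br_e2f3 : ⁅e2 𝕜, f3 𝕜⁆ = f1 𝕜 := by
  apply Subtype.ext
  ext i j
  fin_cases i <;> fin_cases j <;>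
    simp [Ring.lie_def, e1, e2, e3, f1, f2, f3, h1, h2, Matrix.mul_apply, Fin.sum_univ_three,
      Matrix.single, val_single, val_singleSubSingle] <;> try norm_num

theorem br_e3f1 : ⁅e3 𝕜, f1 𝕜⁆ = - e2 𝕜 := by
  apply Subtype.ext
  ext i j
  fin_cases i <;> fin_cases j <;>
    simp [Ring.lie_def, e1, e2, e3, f1, f2, f3, h1, h2, Matrix.mul_apply, Fin.sum_univ_three,
      Matrix.single, val_single, val_singleSubSingle] <;> try norm_num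

theorem br_e3f2 : ⁅e3 𝕜, f2 𝕜⁆ = e1 𝕜 := by
  apply Subtype.ext
  ext i j
  fin_cases i <;> fin_cases j <;>
    simp [Ring.lie_def, e1, e2, e3, f1, f2, f3, h1, h2, Matrix.mul_apply, Fin.sum_univ_three,
      Matrix.single, val_single, val_singleSubSingle] <;> try norm_num

theorem br_h1e1 : ⁅h1 𝕜, e1 𝕜⁆ = ((2 : ℤ) : 𝕜) • e1 𝕜 := by
  apply Subtype.ext
  ext i j
  fin_cases i <;> fin_cases j <;>
    simp [Ring.lie_def, e1, e2, e3, f1, f2, f3, h1, h2, Matrix.mul_apply, Fin.sum_univ_three,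
      Matrix.single, val_single, val_singleSubSingle] <;> try norm_num

theorem br_h2e1 : ⁅h2 𝕜, e1 𝕜⁆ = ((-1 : ℤ) : 𝕜) • e1 𝕜 := by
  apply Subtype.ext
  ext i j
  fin_cases i <;> fin_cases j <;>
    simp [Ring.lie_def, e1, e2, e3, f1, f2, f3, h1, h2, Matrix.mul_apply, Fin.sum_univ_three,
      Matrix.single, val_single, val_singleSubSingle] <;> try norm_num

theorem br_h1e2 : ⁅h1 𝕜, e2 𝕜⁆ = ((-1 : ℤ) : 𝕜) • e2 𝕜 := by
  apply Subtype.ext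
  ext i j
  fin_cases i <;> fin_cases j <;>
    simp [Ring.lie_def, e1, e2, e3, f1, f2, f3, h1, h2, Matrix.mul_apply, Fin.sum_univ_three,
      Matrix.single, val_single, val_singleSubSingle] <;> try norm_num

theorem br_h2e2 : ⁅h2 𝕜, e2 𝕜⁆ = ((2 : ℤ) : 𝕜) • e2 𝕜 := by
  apply Subtype.ext
  ext i j
  fin_cases i <;> fin_cases j <;>
    simp [Ring.lie_def, e1, e2, e3, f1, f2, f3, h1, h2, Matrix.mul_apply, Fin.sum_univ_three,
      Matrix.single, val_single, val_singleSubSingle] <;> try norm_num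

theorem br_h1e3 : ⁅h1 𝕜, e3 𝕜⁆ = ((1 : ℤ) : 𝕜) • e3 𝕜 := by
  apply Subtype.ext
  ext i j
  fin_cases i <;> fin_cases j <;>
    simp [Ring.lie_def, e1, e2, e3, f1, f2, f3, h1, h2, Matrix.mul_apply, Fin.sum_univ_three,
      Matrix.single, val_single, val_singleSubSingle] <;> try norm_num

theorem br_h2e3 : ⁅h2 𝕜, e3 𝕜⁆ = ((1 : ℤ) : 𝕜) • e3 𝕜 := by
  apply Subtype.ext
  ext i j
  fin_cases i <;> fin_cases j <;>
    simp [Ring.lie_def, e1, e2, e3, f1, f2, f3, h1, h2, Matrix.mul_apply, Fin.sum_univ_three,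
      Matrix.single, val_single, val_singleSubSingle] <;> try norm_num

theorem br_h1f1 : ⁅h1 𝕜, f1 𝕜⁆ = ((-2 : ℤ) : 𝕜) • f1 𝕜 := by
  apply Subtype.ext
  ext i j
  fin_cases i <;> fin_cases j <;>
    simp [Ring.lie_def, e1, e2, e3, f1, f2, f3, h1, h2, Matrix.mul_apply, Fin.sum_univ_three,
      Matrix.single, val_single, val_singleSubSingle] <;> try norm_num

theorem br_h2f1 : ⁅h2 𝕜, f1 𝕜⁆ = ((1 : ℤ) : 𝕜) • f1 𝕜 := by
  apply Subtype.ext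
  ext i j
  fin_cases i <;> fin_cases j <;>
    simp [Ring.lie_def, e1, e2, e3, f1, f2, f3, h1, h2, Matrix.mul_apply, Fin.sum_univ_three,
      Matrix.single, val_single, val_singleSubSingle] <;> try norm_num

theorem br_h1f2 : ⁅h1 𝕜, f2 𝕜⁆ = ((1 : ℤ) : 𝕜) • f2 𝕜 := by
  apply Subtype.ext
  ext i j
  fin_cases i <;> fin_cases j <;>
    simp [Ring.lie_def, e1, e2, e3, f1, f2, f3, h1, h2, Matrix.mul_apply, Fin.sum_univ_three,
      Matrix.single, val_single, val_singleSubSingle] <;> try norm_num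

theorem br_h2f2 : ⁅h2 𝕜, f2 𝕜⁆ = ((-2 : ℤ) : 𝕜) • f2 𝕜 := by
  apply Subtype.ext
  ext i j
  fin_cases i <;> fin_cases j <;>
    simp [Ring.lie_def, e1, e2, e3, f1, f2, f3, h1, h2, Matrix.mul_apply, Fin.sum_univ_three,
      Matrix.single, val_single, val_singleSubSingle] <;> try norm_num

theorem br_h1f3 : ⁅h1 𝕜, f3 𝕜⁆ = ((-1 : ℤ) : 𝕜) • f3 𝕜 := by
  apply Subtype.ext
  ext i j
  fin_cases i <;> fin_cases j <;>
    simp [Ring.lie_def, e1, e2, e3, f1, f2, f3, h1, h2, Matrix.mul_apply, Fin.sum_univ_three,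
      Matrix.single, val_single, val_singleSubSingle] <;> try norm_num

theorem br_h2f3 : ⁅h2 𝕜, f3 𝕜⁆ = ((-1 : ℤ) : 𝕜) • f3 𝕜 := by
  apply Subtype.ext
  ext i j
  fin_cases i <;> fin_cases j <;>
    simp [Ring.lie_def, e1, e2, e3, f1, f2, f3, h1, h2, Matrix.mul_apply, Fin.sum_univ_three,
      Matrix.single, val_single, val_singleSubSingle] <;> try norm_num

end br

section lin

variable {𝕜 : Type u} [Field 𝕜] {K0 K1 K2 K3 : Type v} [AddCommGroup K0] [Module 𝕜 K0]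
  [FiniteDimensional 𝕜 K0] [AddCommGroup K1] [Module 𝕜 K1] [FiniteDimensional 𝕜 K1]
  [AddCommGroup K2] [Module 𝕜 K2] [FiniteDimensional 𝕜 K2] [AddCommGroup K3] [Module 𝕜 K3]
  [FiniteDimensional 𝕜 K3]

theorem fr_le {K : Type v} [AddCommGroup K] [Module 𝕜 K] [FiniteDimensional 𝕜 K]
    (T : K →ₗ[𝕜] K) (hT : ∀ x, T x = 0 → x = 0) (S R : Submodule 𝕜 K) (h : ∀ x ∈ S, T x ∈ R) :
    Module.finrank 𝕜 S ≤ Module.finrank 𝕜 R := by
  have hinj : Function.Injective T := by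
    rw [← LinearMap.ker_eq_bot, LinearMap.ker_eq_bot']
    exact hT
  apply LinearMap.finrank_le_finrank_of_injective (f := T.restrict h)
  intro x y hxy
  apply Subtype.ext
  apply hinj
  exact congrArg Subtype.val hxy

theorem euler (d0 : K0 →ₗ[𝕜] K1) (d1 : K1 →ₗ[𝕜] K2) (d2 : K2 →ₗ[𝕜] K3)
    (T0 : K0 →ₗ[𝕜] K0) (T1 : K1 →ₗ[𝕜] K1) (T2 : K2 →ₗ[𝕜] K2) (T3 : K3 →ₗ[𝕜] K3)
    (i0 : ∀ x, T0 x = 0 → x = 0) (i1 : ∀ x, T1 x = 0 → x = 0) (i2 : ∀ x, T2 x = 0 → x = 0)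
    (i3 : ∀ x, T3 x = 0 → x = 0)
    (c01 : ∀ x, d1 (d0 x) = 0) (c12 : ∀ x, d2 (d1 x) = 0)
    (e0 : ∀ x, d0 x = 0 → T0 x = 0)
    (e1 : ∀ x, d1 x = 0 → T1 x ∈ LinearMap.range d0)
    (e2 : ∀ x, d2 x = 0 → T2 x ∈ LinearMap.range d1)
    (e3 : ∀ x, T3 x ∈ LinearMap.range d2) :
    (Module.finrank 𝕜 K0 : ℤ) - Module.finrank 𝕜 K1 + Module.finrank 𝕜 K2
      - Module.finrank 𝕜 K3 = 0 := by
  have r0 := LinearMap.finrank_range_add_finrank_ker d0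
  have r1 := LinearMap.finrank_range_add_finrank_ker d1
  have r2 := LinearMap.finrank_range_add_finrank_ker d2
  have k0 : LinearMap.ker d0 = ⊥ := by
    rw [LinearMap.ker_eq_bot']
    exact fun x hx => i0 x (e0 x hx)
  rw [k0, finrank_bot] at r0
  have a1 : Module.finrank 𝕜 (LinearMap.ker d1) ≤ Module.finrank 𝕜 (LinearMap.range d0) :=
    fr_le T1 i1 _ _ fun x hx => e1 x hx
  have b1 : Module.finrank 𝕜 (LinearMap.range d0) ≤ Module.finrank 𝕜 (LinearMap.ker d1) := by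
    apply Submodule.finrank_mono
    rintro _ ⟨x, rfl⟩
    exact c01 x
  have a2 : Module.finrank 𝕜 (LinearMap.ker d2) ≤ Module.finrank 𝕜 (LinearMap.range d1) :=
    fr_le T2 i2 _ _ fun x hx => e2 x hx
  have b2 : Module.finrank 𝕜 (LinearMap.range d1) ≤ Module.finrank 𝕜 (LinearMap.ker d2) := by
    apply Submodule.finrank_mono
    rintro _ ⟨x, rfl⟩
    exact c12 x
  have a3 : Module.finrank 𝕜 (⊤ : Submodule 𝕜 K3) ≤ Module.finrank 𝕜 (LinearMap.range d2) :=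
    fr_le T3 i3 _ _ fun x _ => e3 x
  have b3 := Submodule.finrank_le (LinearMap.range d2)
  rw [finrank_top] at a3
  omega

end lin

section main

variable {𝕜 : Type u} [Field 𝕜] {M : Type v} [AddCommGroup M] [Module 𝕜 M]

theorem comm_act (φ : sl3 𝕜 →ₗ⁅𝕜⁆ Module.End 𝕜 M) (X Y : sl3 𝕜) (m : M) :
    φ X (φ Y m) = φ Y (φ X m) + φ ⁅X, Y⁆ m := by
  rw [LieHom.map_lie, Ring.lie_def, LinearMap.sub_apply, Module.End.mul_apply,
    Module.End.mul_apply]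
  abel

theorem shift (φ : sl3 𝕜 →ₗ⁅𝕜⁆ Module.End 𝕜 M) {X : sl3 𝕜} {a b : ℤ}
    (hX1 : ⁅h1 𝕜, X⁆ = (a : 𝕜) • X) (hX2 : ⁅h2 𝕜, X⁆ = (b : 𝕜) • X) {μ ν : ℤ × ℤ}
    (hν1 : ν.1 = μ.1 + a) (hν2 : ν.2 = μ.2 + b) :
    ∀ m ∈ wtS φ μ, φ X m ∈ wtS φ ν := by
  rintro m ⟨hm1, hm2⟩
  refine ⟨?_, ?_⟩
  · rw [comm_act, hm1, hX1, hν1, map_smul, map_smul φ, LinearMap.smul_apply]
    push_cast
    module
  · rw [comm_act, hm2, hX2, hν2, map_smul, map_smul φ, LinearMap.smul_apply]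
    push_cast
    module


/-- the value of `cas` at the highest weight `μ` -/
def cw (𝕜 : Type u) [Field 𝕜] (μ : ℤ × ℤ) : 𝕜 :=
  2 * ((μ.1 : 𝕜) ^ 2 + μ.1 * μ.2 + (μ.2 : 𝕜) ^ 2) + 6 * ((μ.1 : 𝕜) + μ.2)

theorem cas_wt (φ : sl3 𝕜 →ₗ⁅𝕜⁆ Module.End 𝕜 M) {μ : ℤ × ℤ} {m : M} (hm : m ∈ wtS φ μ) :
    cas φ m = (6 : 𝕜) • (φ (f1 𝕜) (φ (e1 𝕜) m) + φ (f2 𝕜) (φ (e2 𝕜) m) + φ (f3 𝕜) (φ (e3 𝕜) m))
      + cw 𝕜 μ • m := by
  obtain ⟨hm1, hm2⟩ := hm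
  simp only [cas, LinearMap.add_apply, LinearMap.smul_apply, Module.End.mul_apply, hm1, hm2,
    map_smul, cw]
  module

/-- the operator `cas - c(l)` -/
noncomputable def TT (φ : sl3 𝕜 →ₗ⁅𝕜⁆ Module.End 𝕜 M) (l : ℤ × ℤ) : M →ₗ[𝕜] M :=
  cas φ - cw 𝕜 l • (LinearMap.id : M →ₗ[𝕜] M)

theorem TT_wt (φ : sl3 𝕜 →ₗ⁅𝕜⁆ Module.End 𝕜 M) (l : ℤ × ℤ) {μ : ℤ × ℤ} {m : M}
    (hm : m ∈ wtS φ μ) :
    TT φ l m = (6 : 𝕜) • (φ (f1 𝕜) (φ (e1 𝕜) m) + φ (f2 𝕜) (φ (e2 𝕜) m) + φ (f3 𝕜) (φ (e3 𝕜) m))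
      + (cw 𝕜 μ - cw 𝕜 l) • m := by
  simp only [TT, LinearMap.sub_apply, LinearMap.smul_apply, LinearMap.id_apply, cas_wt φ hm]
  module

theorem TT_mem (φ : sl3 𝕜 →ₗ⁅𝕜⁆ Module.End 𝕜 M) (l : ℤ × ℤ) (μ : ℤ × ℤ) :
    ∀ m ∈ wtS φ μ, TT φ l m ∈ wtS φ μ := by
  intro m hm
  rw [TT_wt φ l hm]
  have a1 := shift φ (br_h1e1 𝕜) (br_h2e1 𝕜) (ν := μ + (2, -1)) rfl rfl m hm
  have a2 := shift φ (br_h1e2 𝕜) (br_h2e2 𝕜) (ν := μ + (-1, 2)) rfl rfl m hm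
  have a3 := shift φ (br_h1e3 𝕜) (br_h2e3 𝕜) (ν := μ + (1, 1)) rfl rfl m hm
  have b1 := shift φ (br_h1f1 𝕜) (br_h2f1 𝕜) (ν := μ) (by simp) (by simp) _ a1
  have b2 := shift φ (br_h1f2 𝕜) (br_h2f2 𝕜) (ν := μ) (by simp) (by simp) _ a2
  have b3 := shift φ (br_h1f3 𝕜) (br_h2f3 𝕜) (ν := μ) (by simp) (by simp) _ a3
  exact add_mem (Submodule.smul_mem _ _ (add_mem (add_mem b1 b2) b3)) (Submodule.smul_mem _ _ hm)

theorem WA_core [FiniteDimensional 𝕜 M] (φ : sl3 𝕜 →ₗ⁅𝕜⁆ Module.End 𝕜 M) (l : ℤ × ℤ)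
    (hT : ∀ m : M, TT φ l m = 0 → m = 0) :
    ph (fun μ => (Module.finrank 𝕜 (wtS φ μ) : ℤ)) l = 0 := by
  -- commutation rules
  have c_e1e2 : ∀ m, φ (e1 𝕜) (φ (e2 𝕜) m) = φ (e2 𝕜) (φ (e1 𝕜) m) + φ (e3 𝕜) m := fun m => by
    rw [comm_act, br_e1e2]
  have c_e1e3 : ∀ m, φ (e1 𝕜) (φ (e3 𝕜) m) = φ (e3 𝕜) (φ (e1 𝕜) m) := fun m => by
    rw [comm_act, br_e1e3, map_zero φ, LinearMap.zero_apply, add_zero]
  have c_e2e3 : ∀ m, φ (e2 𝕜) (φ (e3 𝕜) m) = φ (e3 𝕜) (φ (e2 𝕜) m) := fun m => by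
    rw [comm_act, br_e2e3, map_zero φ, LinearMap.zero_apply, add_zero]
  have c_e1f1 : ∀ m, φ (e1 𝕜) (φ (f1 𝕜) m) = φ (f1 𝕜) (φ (e1 𝕜) m) + φ (h1 𝕜) m := fun m => by
    rw [comm_act, br_e1f1]
  have c_e2f2 : ∀ m, φ (e2 𝕜) (φ (f2 𝕜) m) = φ (f2 𝕜) (φ (e2 𝕜) m) + φ (h2 𝕜) m := fun m => by
    rw [comm_act, br_e2f2]
  have c_e3f3 : ∀ m, φ (e3 𝕜) (φ (f3 𝕜) m) = φ (f3 𝕜) (φ (e3 𝕜) m) + (φ (h1 𝕜) m + φ (h2 𝕜) m) :=
    fun m => by rw [comm_act, br_e3f3, map_add φ, LinearMap.add_apply]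
  have c_e1f2 : ∀ m, φ (e1 𝕜) (φ (f2 𝕜) m) = φ (f2 𝕜) (φ (e1 𝕜) m) := fun m => by
    rw [comm_act, br_e1f2, map_zero φ, LinearMap.zero_apply, add_zero]
  have c_e2f1 : ∀ m, φ (e2 𝕜) (φ (f1 𝕜) m) = φ (f1 𝕜) (φ (e2 𝕜) m) := fun m => by
    rw [comm_act, br_e2f1, map_zero φ, LinearMap.zero_apply, add_zero]
  have c_e1f3 : ∀ m, φ (e1 𝕜) (φ (f3 𝕜) m) = φ (f3 𝕜) (φ (e1 𝕜) m) - φ (f2 𝕜) m := fun m => by
    rw [comm_act, br_e1f3, map_neg φ, LinearMap.neg_apply, sub_eq_add_neg]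
  have c_e2f3 : ∀ m, φ (e2 𝕜) (φ (f3 𝕜) m) = φ (f3 𝕜) (φ (e2 𝕜) m) + φ (f1 𝕜) m := fun m => by
    rw [comm_act, br_e2f3]
  have c_e3f1 : ∀ m, φ (e3 𝕜) (φ (f1 𝕜) m) = φ (f1 𝕜) (φ (e3 𝕜) m) - φ (e2 𝕜) m := fun m => by
    rw [comm_act, br_e3f1, map_neg φ, LinearMap.neg_apply, sub_eq_add_neg]
  have c_e3f2 : ∀ m, φ (e3 𝕜) (φ (f2 𝕜) m) = φ (f2 𝕜) (φ (e3 𝕜) m) + φ (e1 𝕜) m := fun m => by
    rw [comm_act, br_e3f2]
  -- the maps between weight spaces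
  let E1 : ∀ {μ ν : ℤ × ℤ}, ν.1 = μ.1 + 2 → ν.2 = μ.2 + -1 → (wtS φ μ →ₗ[𝕜] wtS φ ν) :=
    fun h h' => (φ (e1 𝕜)).restrict (shift φ (br_h1e1 𝕜) (br_h2e1 𝕜) h h')
  let E2 : ∀ {μ ν : ℤ × ℤ}, ν.1 = μ.1 + -1 → ν.2 = μ.2 + 2 → (wtS φ μ →ₗ[𝕜] wtS φ ν) :=
    fun h h' => (φ (e2 𝕜)).restrict (shift φ (br_h1e2 𝕜) (br_h2e2 𝕜) h h')
  let E3 : ∀ {μ ν : ℤ × ℤ}, ν.1 = μ.1 + 1 → ν.2 = μ.2 + 1 → (wtS φ μ →ₗ[𝕜] wtS φ ν) :=
    fun h h' => (φ (e3 𝕜)).restrict (shift φ (br_h1e3 𝕜) (br_h2e3 𝕜) h h')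
  let F1 : ∀ {μ ν : ℤ × ℤ}, ν.1 = μ.1 + -2 → ν.2 = μ.2 + 1 → (wtS φ μ →ₗ[𝕜] wtS φ ν) :=
    fun h h' => (φ (f1 𝕜)).restrict (shift φ (br_h1f1 𝕜) (br_h2f1 𝕜) h h')
  let F2 : ∀ {μ ν : ℤ × ℤ}, ν.1 = μ.1 + 1 → ν.2 = μ.2 + -2 → (wtS φ μ →ₗ[𝕜] wtS φ ν) :=
    fun h h' => (φ (f2 𝕜)).restrict (shift φ (br_h1f2 𝕜) (br_h2f2 𝕜) h h')
  let F3 : ∀ {μ ν : ℤ × ℤ}, ν.1 = μ.1 + -1 → ν.2 = μ.2 + -1 → (wtS φ μ →ₗ[𝕜] wtS φ ν) :=
    fun h h' => (φ (f3 𝕜)).restrict (shift φ (br_h1f3 𝕜) (br_h2f3 𝕜) h h')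
  let Tr : ∀ μ : ℤ × ℤ, wtS φ μ →ₗ[𝕜] wtS φ μ := fun μ => (TT φ l).restrict (TT_mem φ l μ)
  have iTr : ∀ μ (x : wtS φ μ), Tr μ x = 0 → x = 0 := by
    intro μ x hx
    apply Subtype.ext
    exact hT _ (congrArg Subtype.val hx)
  let d0 : wtS φ l →ₗ[𝕜] wtS φ (l + (2, -1)) × wtS φ (l + (-1, 2)) × wtS φ (l + (1, 1)) :=
    (E1 rfl rfl).prod ((E2 rfl rfl).prod (E3 rfl rfl))
  let d1 : (wtS φ (l + (2, -1)) × wtS φ (l + (-1, 2)) × wtS φ (l + (1, 1))) →ₗ[𝕜]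
      wtS φ (l + (1, 1)) × wtS φ (l + (3, 0)) × wtS φ (l + (0, 3)) :=
    { toFun := fun u => (E1 (by simp; ring) (by simp; ring) u.2.1 - E2 (by simp; ring) (by simp; ring) u.1 - u.2.2,
        E1 (by simp; ring) (by simp) u.2.2 - E3 (by simp; ring) (by simp) u.1,
        E2 (by simp) (by simp; ring) u.2.2 - E3 (by simp) (by simp; ring) u.2.1)
      map_add' := by
        intro u u'
        ext <;> simp <;> abel
      map_smul' := by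
        intro c u
        ext <;> simp [smul_sub] }
  let d2 : (wtS φ (l + (1, 1)) × wtS φ (l + (3, 0)) × wtS φ (l + (0, 3))) →ₗ[𝕜]
      wtS φ (l + (2, 2)) :=
    { toFun := fun u => E1 (by simp) (by simp; ring) u.2.2 - E2 (by simp; ring) (by simp) u.2.1
        + E3 (by simp; ring) (by simp; ring) u.1
      map_add' := by
        intro u u'
        ext
        simp
        abel
      map_smul' := by
        intro c u
        ext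
        simp [smul_sub] }
  have key := euler d0 d1 d2 (Tr l)
    ((Tr (l + (2, -1))).prodMap ((Tr (l + (-1, 2))).prodMap (Tr (l + (1, 1)))))
    ((Tr (l + (1, 1))).prodMap ((Tr (l + (3, 0))).prodMap (Tr (l + (0, 3)))))
    (Tr (l + (2, 2)))
    (iTr l)
    (fun x hx => by
      have h1 := congrArg Prod.fst hx
      have h2 := congrArg (fun u => u.2.1) hx
      have h3 := congrArg (fun u => u.2.2) hx
      exact Prod.ext (iTr _ _ h1) (Prod.ext (iTr _ _ h2) (iTr _ _ h3)))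
    (fun x hx => by
      have h1 := congrArg Prod.fst hx
      have h2 := congrArg (fun u => u.2.1) hx
      have h3 := congrArg (fun u => u.2.2) hx
      exact Prod.ext (iTr _ _ h1) (Prod.ext (iTr _ _ h2) (iTr _ _ h3)))
    (iTr _)
    ?_ ?_ ?_ ?_ ?_ ?_
  · simp only [Module.finrank_prod] at key
    unfold ph
    push_cast at key ⊢
    linarith
  -- `d1 ∘ d0 = 0`
  · intro x
    refine Prod.ext ?_ (Prod.ext ?_ ?_)
    · apply Subtype.ext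
      show φ (e1 𝕜) (φ (e2 𝕜) x) - φ (e2 𝕜) (φ (e1 𝕜) x) - φ (e3 𝕜) x = 0
      rw [c_e1e2]
      abel
    · apply Subtype.ext
      show φ (e1 𝕜) (φ (e3 𝕜) x) - φ (e3 𝕜) (φ (e1 𝕜) x) = 0
      rw [c_e1e3, sub_self]
    · apply Subtype.ext
      show φ (e2 𝕜) (φ (e3 𝕜) x) - φ (e3 𝕜) (φ (e2 𝕜) x) = 0
      rw [c_e2e3, sub_self]
  -- `d2 ∘ d1 = 0`
  · rintro ⟨x, y, z⟩
    apply Subtype.ext
    show φ (e1 𝕜) (φ (e2 𝕜) z - φ (e3 𝕜) y) - φ (e2 𝕜) (φ (e1 𝕜) z - φ (e3 𝕜) x)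
      + φ (e3 𝕜) (φ (e1 𝕜) y - φ (e2 𝕜) x - z) = 0
    simp only [map_sub, c_e1e2, c_e1e3, c_e2e3]
    abel
  -- degree 0
  · intro x hx
    have g1 : φ (e1 𝕜) x = 0 := congrArg (fun u => (u.1 : M)) hx
    have g2 : φ (e2 𝕜) x = 0 := congrArg (fun u => (u.2.1 : M)) hx
    have g3 : φ (e3 𝕜) x = 0 := congrArg (fun u => (u.2.2 : M)) hx
    apply Subtype.ext
    show TT φ l x = 0
    rw [TT_wt φ l x.2, g1, g2, g3]
    simp
  -- degree 1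
  · rintro ⟨x, y, z⟩ hx
    have g12 : φ (e1 𝕜) y - φ (e2 𝕜) x - z = 0 := congrArg (fun u => (u.1 : M)) hx
    have g13 : φ (e1 𝕜) z - φ (e3 𝕜) x = 0 := congrArg (fun u => (u.2.1 : M)) hx
    have g23 : φ (e2 𝕜) z - φ (e3 𝕜) y = 0 := congrArg (fun u => (u.2.2 : M)) hx
    have g12' : ∀ X : sl3 𝕜, φ X (φ (e1 𝕜) y) - φ X (φ (e2 𝕜) x) - φ X z = 0 := fun X => by
      rw [← map_sub, ← map_sub, g12, map_zero]
    have g13' : ∀ X : sl3 𝕜, φ X (φ (e1 𝕜) z) - φ X (φ (e3 𝕜) x) = 0 := fun X => by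
      rw [← map_sub, g13, map_zero]
    have g23' : ∀ X : sl3 𝕜, φ X (φ (e2 𝕜) z) - φ X (φ (e3 𝕜) y) = 0 := fun X => by
      rw [← map_sub, g23, map_zero]
    have x1 := x.2.1
    have y2 := y.2.2
    have z1 := z.2.1
    have z2 := z.2.2
    refine ⟨(6 : 𝕜) • (F1 (by simp) (by simp) x + F2 (by simp) (by simp) y
      + F3 (by simp) (by simp) z), ?_⟩
    refine Prod.ext ?_ (Prod.ext ?_ ?_)
    · apply Subtype.ext
      show φ (e1 𝕜) ((6 : 𝕜) • (φ (f1 𝕜) x + φ (f2 𝕜) y + φ (f3 𝕜) z)) = TT φ l x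
      rw [TT_wt φ l x.2]
      simp only [map_smul, map_add, c_e1f1, c_e1f2, c_e1f3, x1, cw, Prod.fst_add, Prod.snd_add]
      push_cast
      linear_combination (norm := module) (6 : 𝕜) • g12' (f2 𝕜) + (6 : 𝕜) • g13' (f3 𝕜)
    · apply Subtype.ext
      show φ (e2 𝕜) ((6 : 𝕜) • (φ (f1 𝕜) x + φ (f2 𝕜) y + φ (f3 𝕜) z)) = TT φ l y
      rw [TT_wt φ l y.2]
      simp only [map_smul, map_add, c_e2f1, c_e2f2, c_e2f3, y2, cw, Prod.fst_add, Prod.snd_add]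
      push_cast
      linear_combination (norm := module) (-6 : 𝕜) • g12' (f1 𝕜) + (6 : 𝕜) • g23' (f3 𝕜)
    · apply Subtype.ext
      show φ (e3 𝕜) ((6 : 𝕜) • (φ (f1 𝕜) x + φ (f2 𝕜) y + φ (f3 𝕜) z)) = TT φ l z
      rw [TT_wt φ l z.2]
      simp only [map_smul, map_add, c_e3f1, c_e3f2, c_e3f3, z1, z2, cw, Prod.fst_add,
        Prod.snd_add]
      push_cast
      linear_combination (norm := module) (-6 : 𝕜) • g13' (f1 𝕜) + (-6 : 𝕜) • g23' (f2 𝕜)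
        + (6 : 𝕜) • g12
  -- degree 2
  · rintro ⟨x, y, z⟩ hx
    have g : φ (e1 𝕜) z - φ (e2 𝕜) y + φ (e3 𝕜) x = 0 := congrArg Subtype.val hx
    have g' : ∀ X : sl3 𝕜, φ X (φ (e1 𝕜) z) - φ X (φ (e2 𝕜) y) + φ X (φ (e3 𝕜) x) = 0 := fun X => by
      rw [← map_sub, ← map_add, g, map_zero]
    have x1 := x.2.1
    have x2 := x.2.2
    have y1 := y.2.1
    have y2 := y.2.2
    have z1 := z.2.1
    have z2 := z.2.2
    refine ⟨((6 : 𝕜) • (- F2 (by simp; ring) (by simp; ring) x - F3 (by simp; ring) (by simp) y),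
      (6 : 𝕜) • (F1 (by simp; ring) (by simp; ring) x - F3 (by simp) (by simp; ring) z),
      (6 : 𝕜) • (F1 (by simp; ring) (by simp) y + F2 (by simp) (by simp; ring) z - x)), ?_⟩
    refine Prod.ext ?_ (Prod.ext ?_ ?_)
    · apply Subtype.ext
      show φ (e1 𝕜) ((6 : 𝕜) • (φ (f1 𝕜) x - φ (f3 𝕜) z))
        - φ (e2 𝕜) ((6 : 𝕜) • (- φ (f2 𝕜) x - φ (f3 𝕜) y))
        - (6 : 𝕜) • (φ (f1 𝕜) y + φ (f2 𝕜) z - x) = TT φ l x
      rw [TT_wt φ l x.2]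
      simp only [map_smul, map_sub, map_neg, c_e1f1, c_e1f3, c_e2f2, c_e2f3, x1, x2, cw,
        Prod.fst_add, Prod.snd_add]
      push_cast
      linear_combination (norm := module) (-6 : 𝕜) • g' (f3 𝕜)
    · apply Subtype.ext
      show φ (e1 𝕜) ((6 : 𝕜) • (φ (f1 𝕜) y + φ (f2 𝕜) z - x))
        - φ (e3 𝕜) ((6 : 𝕜) • (- φ (f2 𝕜) x - φ (f3 𝕜) y)) = TT φ l y
      rw [TT_wt φ l y.2]
      simp only [map_smul, map_add, map_sub, map_neg, c_e1f1, c_e1f2, c_e3f2, c_e3f3, y1, y2, cw,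
        Prod.fst_add, Prod.snd_add]
      push_cast
      linear_combination (norm := module) (6 : 𝕜) • g' (f2 𝕜)
    · apply Subtype.ext
      show φ (e2 𝕜) ((6 : 𝕜) • (φ (f1 𝕜) y + φ (f2 𝕜) z - x))
        - φ (e3 𝕜) ((6 : 𝕜) • (φ (f1 𝕜) x - φ (f3 𝕜) z)) = TT φ l z
      rw [TT_wt φ l z.2]
      simp only [map_smul, map_add, map_sub, c_e2f1, c_e2f2, c_e3f1, c_e3f3, z1, z2, cw,
        Prod.fst_add, Prod.snd_add]
      push_cast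
      linear_combination (norm := module) (-6 : 𝕜) • g' (f1 𝕜)
  -- degree 3
  · intro w
    have w1 := w.2.1
    have w2 := w.2.2
    refine ⟨((6 : 𝕜) • F3 (by simp; ring) (by simp; ring) w,
      (-6 : 𝕜) • F2 (by simp; ring) (by simp) w,
      (6 : 𝕜) • F1 (by simp) (by simp; ring) w), ?_⟩
    apply Subtype.ext
    show φ (e1 𝕜) ((6 : 𝕜) • φ (f1 𝕜) w) - φ (e2 𝕜) ((-6 : 𝕜) • φ (f2 𝕜) w)
      + φ (e3 𝕜) ((6 : 𝕜) • φ (f3 𝕜) w) = TT φ l w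
    rw [TT_wt φ l w.2]
    simp only [map_smul, c_e1f1, c_e2f2, c_e3f3, w1, w2, cw, Prod.fst_add, Prod.snd_add]
    push_cast
    module

/-- JOB WA -/
theorem job_WA [CharZero 𝕜] [FiniteDimensional 𝕜 M] (φ : sl3 𝕜 →ₗ⁅𝕜⁆ Module.End 𝕜 M) (l : ℤ × ℤ)
    (hT : ∀ m : M, cas φ m =
      (2 * ((l.1 : 𝕜) ^ 2 + l.1 * l.2 + (l.2 : 𝕜) ^ 2) + 6 * ((l.1 : 𝕜) + l.2)) • m → m = 0) :
    ph (fun μ => (Module.finrank 𝕜 (wtS φ μ) : ℤ)) l = 0 := by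
  apply WA_core φ l
  intro m hm
  apply hT
  have h : cas φ m - cw 𝕜 l • m = 0 := hm
  exact sub_eq_zero.mp h

end main

end Pool.Agent.J4H75.ABG
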